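import Pool.Agent.Helper5.SX.St

/-!
# SX MODULE BFA: basic facts on states, first part
-/

set_option autoImplicit false

namespace Pool.Agent.Helper2.SX

open _root_.SX
open Finset
open scoped Classical

theorem hBFA : StBFA := by
  intro V _ A c y l hS
  have hlab := hS.base.lab
  have h1 : ∀ m ∈ Mk A c, ∀ m' ∈ Mk A c, A.b m = A.b m' → m = m' := by
    intro m hm m' hm' hb
    rw [Mk, mem_filter] at hm hm'
    rcases hm.2 with h | h <;> rcases hm'.2 with h' | h'
    · rw [h, h']
    · subst h
      exact absurd h' (hS.base.miss m' hb.symm)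
    · subst h'
      exact absurd h (hS.base.miss m hb)
    · exact hlab.inj m m' hb (by rw [h, h'])
  have hLfK : ∀ i j, i < j → Lf A c (y i) ⊆ Kset A c y j := by
    intro i j hij z hz
    rw [Kset, mem_biUnion]
    exact ⟨i, mem_range.mpr hij, mem_insert_of_mem hz⟩
  have h2 : ∀ i j, i < j → j < l → Disjoint (Lf A c (y i)) (Lf A c (y j)) := by
    intro i j hij hj
    rw [Finset.disjoint_left]
    intro z hz hz'
    have hzN : z ∈ A.N (y j) := by
      rw [Lf, mem_filter] at hz'
      exact hz'.1
    exact hS.und j hj z hzN (hLfK i j hij hz)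
  have h3' : ∀ i j, i < j → j < l → y i ≠ y j := by
    intro i j hij hj he
    have hd := h2 i j hij hj
    rw [he] at hd
    obtain ⟨z, hz⟩ := hS.lf j hj
    exact Finset.disjoint_left.mp hd hz hz
  have h3 : ∀ i < l, ∀ j < l, y i = y j → i = j := by
    intro i hi j hj he
    rcases lt_trichotomy i j with h | h | h
    · exact absurd he (h3' i j h hj)
    · exact h
    · exact absurd he.symm (h3' j i h hi)
  have h4 : ∀ i < l, 1 ≤ i → y i ∉ Mk A c := by
    intro i hi h1i hm
    rw [Mk, mem_filter] at hm
    have hu : y i ≠ A.u := by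
      rw [← hS.zero]
      intro he
      exact absurd he.symm (h3' 0 i (by omega) hi)
    rcases hm.2 with h | h
    · exact hu h
    · rcases hS.av i hi with h' | h'
      · exact hu h'
      · exact h'.1 h
  have h5 : l ≤ Fintype.card V := by
    have hc : ((range l).image y).card = l := by
      rw [card_image_of_injOn, card_range]
      intro i hi j hj he
      have hi' : i < l := by simpa using hi
      have hj' : j < l := by simpa using hj
      exact h3 i hi' j hj' he
    calc l = ((range l).image y).card := hc.symm
      _ ≤ (univ : Finset V).card := card_le_card (subset_univ _)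
      _ = Fintype.card V := rfl
  have h6 : ∀ i j, i ≤ j → Kset A c y i ⊆ Kset A c y j ∧ Sb A c y i ⊆ Sb A c y j := by
    intro i j hij
    have hr : range i ⊆ range j := by
      intro x hx
      rw [mem_range] at hx ⊢
      omega
    refine ⟨?_, ?_⟩
    · exact biUnion_subset_biUnion_of_subset_left _ hr
    · exact insert_subset_insert _ (image_subset_image (biUnion_subset_biUnion_of_subset_left _ hr))
  have h7 : ∀ j < l, ∀ z ∈ Lf A c (y j), A.b z ∉ Sb A c y j := by
    intro j hj z hz hb
    have hzc : c z = A.al := by
      rw [Lf, mem_filter] at hz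
      exact hz.2
    have hzM : z ∈ Mk A c := by
      rw [Mk, mem_filter]
      exact ⟨mem_univ _, Or.inr hzc⟩
    rw [Sb, mem_insert] at hb
    rcases hb with hb | hb
    · exact hS.base.miss z hb hzc
    · rw [mem_image] at hb
      obtain ⟨z', hz', hbz⟩ := hb
      rw [mem_biUnion] at hz'
      obtain ⟨i, hi, hz'i⟩ := hz'
      have hz'M : z' ∈ Mk A c := by
        rw [Lf, mem_filter] at hz'i
        rw [Mk, mem_filter]
        exact ⟨mem_univ _, Or.inr hz'i.2⟩
      have he := h1 z' hz'M z hzM hbz
      subst he
      exact Finset.disjoint_left.mp (h2 i j (mem_range.mp hi) hj) hz'i hz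
  exact ⟨h1, h2, h3, h4, h5, h6, h7⟩

end Pool.Agent.Helper2.SX
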