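import Pool.Agent.Helper5.SX.St

/-!
# SX MODULE BFB: basic facts on states, second part
-/

set_option autoImplicit false

namespace Pool.Agent.Helper2.SX

open _root_.SX
open Finset
open scoped Classical

theorem hBFB : StBFA → StBFB := by
  intro hBFA V _ A c y l hS hl
  obtain ⟨h1, h2, h3, h4, h5, h6, h7⟩ := hBFA V A c y l hS
  have hyK : ∀ i < l, y i ∈ Kset A c y l := by
    intro i hi
    rw [Kset, mem_biUnion]
    exact ⟨i, mem_range.mpr hi, mem_insert_self _ _⟩
  have hLK : ∀ i < l, ∀ z ∈ Lf A c (y i), z ∈ Kset A c y l := by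
    intro i hi z hz
    rw [Kset, mem_biUnion]
    exact ⟨i, mem_range.mpr hi, mem_insert_of_mem hz⟩
  have hLM : ∀ v, ∀ z ∈ Lf A c v, z ∈ Mk A c := by
    intro v z hz
    rw [Lf, mem_filter] at hz
    rw [Mk, mem_filter]
    exact ⟨mem_univ _, Or.inr hz.2⟩
  have hLS : ∀ i < l, ∀ z ∈ Lf A c (y i), A.b z ∈ Sb A c y l := by
    intro i hi z hz
    rw [Sb, mem_insert]
    right
    rw [mem_image]
    exact ⟨z, mem_biUnion.mpr ⟨i, mem_range.mpr hi, hz⟩, rfl⟩
  have huM : A.u ∈ Mk A c := by
    rw [Mk, mem_filter]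
    exact ⟨mem_univ _, Or.inl rfl⟩
  have c1 : A.u ∈ Kset A c y l := by
    rw [← hS.zero]
    exact hyK 0 hl
  have c2 : ∀ z ∈ Kset A c y l, A.b z ∈ Sb A c y l := by
    intro z hz
    rw [Kset, mem_biUnion] at hz
    obtain ⟨i, hi, hz⟩ := hz
    rw [mem_range] at hi
    rw [mem_insert] at hz
    rcases hz with hz | hz
    · subst hz
      exact (h6 i l hi.le).2 (hS.inS i hi)
    · exact hLS i hi z hz
  have c3 : ∀ B ∈ Sb A c y l, ∃ m ∈ KM A c y l, A.b m = B := by
    intro B hB
    rw [Sb, mem_insert] at hB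
    rcases hB with hB | hB
    · refine ⟨A.u, ?_, hB.symm⟩
      rw [KM, mem_filter]
      exact ⟨c1, huM⟩
    · rw [mem_image] at hB
      obtain ⟨z, hz, hzB⟩ := hB
      rw [mem_biUnion] at hz
      obtain ⟨i, hi, hz⟩ := hz
      rw [mem_range] at hi
      refine ⟨z, ?_, hzB⟩
      rw [KM, mem_filter]
      exact ⟨hLK i hi z hz, hLM _ z hz⟩
  have himg : (KM A c y l).image A.b = Sb A c y l := by
    ext B
    rw [mem_image]
    constructor
    · rintro ⟨m, hm, rfl⟩
      rw [KM, mem_filter] at hm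
      exact c2 m hm.1
    · intro hB
      obtain ⟨m, hm, hmB⟩ := c3 B hB
      exact ⟨m, hm, hmB⟩
  have c4 : (KM A c y l).card = (Sb A c y l).card := by
    rw [← himg, card_image_of_injOn]
    intro m hm m' hm' he
    have hm2 : m ∈ Mk A c := (mem_filter.mp (mem_coe.mp hm)).2
    have hm2' : m' ∈ Mk A c := (mem_filter.mp (mem_coe.mp hm')).2
    exact h1 m hm2 m' hm2' he
  have c5 : ∀ z ∈ Kset A c y l, z ∉ Mk A c → z ∈ Cen y l := by
    intro z hz hzM
    rw [Kset, mem_biUnion] at hz
    obtain ⟨i, hi, hz⟩ := hz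
    rw [mem_range] at hi
    rw [mem_insert] at hz
    rcases hz with hz | hz
    · have hi1 : 1 ≤ i := by
        by_contra h
        have h0 : i = 0 := by omega
        apply hzM
        rw [hz, h0, hS.zero]
        exact huM
      rw [Cen, mem_image]
      exact ⟨i, mem_Ico.mpr ⟨hi1, hi⟩, hz.symm⟩
    · exact absurd (hLM _ z hz) hzM
  have c6 : ∀ z ∈ Cen y l, z ∈ Kset A c y l ∧ z ∉ Mk A c := by
    intro z hz
    rw [Cen, mem_image] at hz
    obtain ⟨i, hi, rfl⟩ := hz
    rw [mem_Ico] at hi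
    exact ⟨hyK i hi.2, h4 i hi.2 hi.1⟩
  have c7 : (Cen y l).card = l - 1 := by
    rw [Cen, card_image_of_injOn, Nat.card_Ico]
    intro i hi j hj he
    have hi' := mem_Ico.mp (mem_coe.mp hi)
    have hj' := mem_Ico.mp (mem_coe.mp hj)
    exact h3 i hi'.2 j hj'.2 he
  have c8 : l + 1 ≤ (Sb A c y l).card := by
    rw [Sb, card_insert_of_notMem]
    · rw [card_image_of_injOn]
      · rw [card_biUnion]
        · have : ∑ i ∈ range l, 1 ≤ ∑ i ∈ range l, (Lf A c (y i)).card := by
            apply sum_le_sum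
            intro i hi
            exact (hS.lf i (mem_range.mp hi)).card_pos
          simp only [sum_const, card_range, smul_eq_mul, mul_one] at this
          omega
        · intro i hi j hj hij
          have hi' := mem_range.mp (mem_coe.mp hi)
          have hj' := mem_range.mp (mem_coe.mp hj)
          rcases lt_or_gt_of_ne hij with h | h
          · exact h2 i j h hj'
          · exact (h2 j i h hi').symm
      · intro z hz z' hz' he
        have hzz := mem_biUnion.mp (mem_coe.mp hz)
        have hzz' := mem_biUnion.mp (mem_coe.mp hz')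
        obtain ⟨i, _, hi⟩ := hzz
        obtain ⟨j, _, hj⟩ := hzz'
        exact h1 z (hLM _ z hi) z' (hLM _ z' hj) he
    · intro hb
      rw [mem_image] at hb
      obtain ⟨z, hz, hbz⟩ := hb
      rw [mem_biUnion] at hz
      obtain ⟨i, _, hz⟩ := hz
      rw [Lf, mem_filter] at hz
      exact hS.base.miss z hbz hz.2
  have c9 : (Kset A c y l).card + 2 ≤ 2 * (Sb A c y l).card := by
    have hsub : Kset A c y l ⊆ KM A c y l ∪ Cen y l := by
      intro z hz
      rw [mem_union]
      by_cases hzM : z ∈ Mk A c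
      · left
        rw [KM, mem_filter]
        exact ⟨hz, hzM⟩
      · right
        exact c5 z hz hzM
    have h10 := card_le_card hsub
    have h11 := card_union_le (KM A c y l) (Cen y l)
    omega
  have c10 : ∀ z ∈ Kset A c y l, ∃ w ∈ A.N z, w ∈ Kset A c y l := by
    intro z hz
    rw [Kset, mem_biUnion] at hz
    obtain ⟨i, hi, hz⟩ := hz
    rw [mem_range] at hi
    rw [mem_insert] at hz
    rcases hz with hz | hz
    · obtain ⟨w, hw⟩ := hS.lf i hi
      refine ⟨w, ?_, hLK i hi w hw⟩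
      rw [hz]
      exact (mem_filter.mp hw).1
    · exact ⟨y i, A.symm _ _ (mem_filter.mp hz).1, hyK i hi⟩
  exact ⟨c1, c2, c3, c4, c5, c6, c7, c8, c9, c10⟩

end Pool.Agent.Helper2.SX
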